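import Pool.Agent.Lib.MP_6547d0_mp.Defs

/-! A convex function on `[0, L]` agrees on `(0, L)` with a continuous convex function, and the
Dirichlet eigenvalues do not see the values at the end points. -/

set_option autoImplicit false

namespace Pool.Agent.Lib.MP_6547d0_mp.E

open Set Filter Topology

lemma lim_left {L : ℝ} {V : ℝ → ℝ} (hL : 0 < L) (hV : ConvexOn ℝ (Icc 0 L) V) :
    ∃ l, Tendsto V (𝓝[>] 0) (𝓝 l) := by
  have hm : MonotoneOn (fun x => (V x - V L) / (x - L)) (Ioo 0 L) := fun x hx y hy h =>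
    hV.secant_mono ⟨hL.le, le_rfl⟩ (Ioo_subset_Icc_self hx) (Ioo_subset_Icc_self hy) hx.2.ne
      hy.2.ne h
  have hb : BddBelow ((fun x => (V x - V L) / (x - L)) '' Ioo 0 L) := by
    refine ⟨(V 0 - V L) / (0 - L), ?_⟩
    rintro _ ⟨x, hx, rfl⟩
    exact hV.secant_mono ⟨hL.le, le_rfl⟩ ⟨le_rfl, hL.le⟩ (Ioo_subset_Icc_self hx) hL.ne hx.2.ne
      hx.1.le
  have h1 := hm.tendsto_nhdsWithin_Ioo_right (nonempty_Ioo.2 hL) hb
  have h2 : Tendsto (fun x : ℝ => x - L) (𝓝[>] 0) (𝓝 (0 - L)) :=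
    ((continuous_id.sub continuous_const).tendsto 0).mono_left nhdsWithin_le_nhds
  refine ⟨_, ((h1.mul h2).add_const (V L)).congr' ?_⟩
  filter_upwards [Ioo_mem_nhdsGT hL] with x hx
  rw [div_mul_cancel₀ _ (sub_ne_zero.2 hx.2.ne), sub_add_cancel]

lemma lim_right {L : ℝ} {V : ℝ → ℝ} (hL : 0 < L) (hV : ConvexOn ℝ (Icc 0 L) V) :
    ∃ l, Tendsto V (𝓝[<] L) (𝓝 l) := by
  have hm : MonotoneOn (fun x => (V x - V 0) / (x - 0)) (Ioo 0 L) := fun x hx y hy h =>
    hV.secant_mono ⟨le_rfl, hL.le⟩ (Ioo_subset_Icc_self hx) (Ioo_subset_Icc_self hy) hx.1.ne'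
      hy.1.ne' h
  have hb : BddAbove ((fun x => (V x - V 0) / (x - 0)) '' Ioo 0 L) := by
    refine ⟨(V L - V 0) / (L - 0), ?_⟩
    rintro _ ⟨x, hx, rfl⟩
    exact hV.secant_mono ⟨le_rfl, hL.le⟩ (Ioo_subset_Icc_self hx) ⟨hL.le, le_rfl⟩ hx.1.ne' hL.ne'
      hx.2.le
  have h1 := hm.tendsto_nhdsWithin_Ioo_left (nonempty_Ioo.2 hL) hb
  have h2 : Tendsto (fun x : ℝ => x - 0) (𝓝[<] L) (𝓝 (L - 0)) :=
    ((continuous_id.sub continuous_const).tendsto L).mono_left nhdsWithin_le_nhds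
  refine ⟨_, ((h1.mul h2).add_const (V 0)).congr' ?_⟩
  filter_upwards [Ioo_mem_nhdsLT hL] with x hx
  rw [div_mul_cancel₀ _ (sub_ne_zero.2 hx.1.ne'), sub_add_cancel]

lemma eig_congr {L : ℝ} {V W : ℝ → ℝ} (h : ∀ x ∈ Ioo 0 L, W x = V x) :
    IsEig L W = IsEig L V := by
  funext μ
  refine propext (exists_congr fun y => ?_)
  have : (∀ x ∈ Ioo 0 L, -deriv (deriv y) x + W x * y x = μ * y x) ↔
      ∀ x ∈ Ioo 0 L, -deriv (deriv y) x + V x * y x = μ * y x :=
    forall₂_congr fun x hx => by rw [h x hx]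
  rw [this]

/-- A continuous convex potential with the same eigenvalues. -/
theorem exists_cont {L : ℝ} {V : ℝ → ℝ} (hL : 0 < L) (hV : ConvexOn ℝ (Icc 0 L) V) :
    ∃ W : ℝ → ℝ, ContinuousOn W (Icc 0 L) ∧ ConvexOn ℝ (Icc 0 L) W ∧ IsNth L W = IsNth L V := by
  obtain ⟨l, hl⟩ := lim_left hL hV
  obtain ⟨r, hr⟩ := lim_right hL hV
  have hc : ContinuousOn V (Ioo 0 L) := by
    have := hV.continuousOn_interior
    rwa [interior_Icc] at this
  have cW := continuousOn_Icc_extendFrom_Ioo hc hl hr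
  have eW := extendFrom_extends hc
  set W := extendFrom (Ioo 0 L) V
  refine ⟨W, cW, ⟨convex_Icc _ _, fun x hx y hy α β hα hβ hs => ?_⟩, ?_⟩
  · have hin : ∀ z ∈ Icc 0 L, ∀ t ∈ Ioo (0 : ℝ) 1, z + t * (L / 2 - z) ∈ Ioo 0 L := by
      intro z hz t ht
      constructor <;> nlinarith [hz.1, hz.2, ht.1, ht.2]
    have hlim : ∀ z ∈ Icc 0 L,
        Tendsto (fun t : ℝ => W (z + t * (L / 2 - z))) (𝓝[>] 0) (𝓝 (W z)) := by
      intro z hz
      refine (cW z hz).tendsto.comp (tendsto_nhdsWithin_iff.2 ⟨?_, ?_⟩)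
      · have : Tendsto (fun t : ℝ => z + t * (L / 2 - z)) (𝓝 0) (𝓝 (z + 0 * (L / 2 - z))) :=
          (by fun_prop : Continuous fun t : ℝ => z + t * (L / 2 - z)).tendsto 0
        rw [zero_mul, add_zero] at this
        exact this.mono_left nhdsWithin_le_nhds
      · filter_upwards [Ioo_mem_nhdsGT one_pos] with t ht
        exact Ioo_subset_Icc_self (hin z hz t ht)
    have hz := convex_Icc (0 : ℝ) L hx hy hα hβ hs
    refine le_of_tendsto_of_tendsto (hlim _ hz)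
      (((hlim x hx).const_smul α).add ((hlim y hy).const_smul β)) ?_
    filter_upwards [Ioo_mem_nhdsGT one_pos] with t ht
    have h := hV.2 (Ioo_subset_Icc_self (hin x hx t ht)) (Ioo_subset_Icc_self (hin y hy t ht))
      hα hβ hs
    rw [eW _ (hin _ hz t ht), eW _ (hin x hx t ht), eW _ (hin y hy t ht)]
    convert h using 2
    simp only [smul_eq_mul]
    linear_combination (-(t * L / 2)) * hs
  · funext n a
    unfold IsNth
    rw [eig_congr eW]

end Pool.Agent.Lib.MP_6547d0_mp.E
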